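import Pool.Agent.Helper48.CR.Goals

/-!
# FRAT
-/

set_option autoImplicit false

open Pool.Agent.Helper48.CR

namespace Pool.Agent.Helper86.CR

theorem frat (h1 : FB1G) : FRATG := by
  intro L M α hα hL hF j hj1 hjM
  obtain ⟨h01, hanti, hlc, -⟩ := h1 L (2 * M) hL
  have hpos2 : 0 < FL L (2 * M) := lt_of_lt_of_le (pow_pos hα _) hF
  have hanti' : ∀ k i, i + k ≤ 2 * M → FL L (i + k) ≤ FL L i := by
    intro k
    induction k with
    | zero => intro i _; exact le_rfl
    | succ k ih =>
      intro i hi
      exact le_trans (hanti (i + k) (by omega)) (ih i (by omega))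
  have hpos : ∀ i, i ≤ 2 * M → 0 < FL L i := by
    intro i hi
    have := hanti' (2 * M - i) i (by omega)
    rw [show i + (2 * M - i) = 2 * M by omega] at this
    exact lt_of_lt_of_le hpos2 this
  obtain ⟨m, rfl⟩ : ∃ m, j = m + 1 := ⟨j - 1, by omega⟩
  rw [show m + 1 - 1 = m by omega]
  have hm0 : 0 < FL L m := hpos m (by omega)
  have hm1 : 0 < FL L (m + 1) := hpos (m + 1) (by omega)
  -- ratio decreasing
  have hrat : ∀ k, m + 1 + k ≤ 2 * M →
      FL L (m + k + 1) * FL L m ≤ FL L (m + 1) * FL L (m + k) := by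
    intro k
    induction k with
    | zero => intro _; simp
    | succ k ih =>
      intro hk
      have ih' := ih (by omega)
      have hl := hlc (m + k) (by omega)
      have hpk : 0 < FL L (m + k) := hpos _ (by omega)
      have hpk1 : 0 < FL L (m + k + 1) := hpos _ (by omega)
      have e1 : m + (k + 1) + 1 = m + k + 2 := by omega
      have e2 : m + (k + 1) = m + k + 1 := by omega
      rw [e1, e2]
      -- F(m+k) F(m+k+2) ≤ F(m+k+1)^2, F(m+k+1) F m ≤ F (m+1) F (m+k)
      have h3 : FL L (m + k) * (FL L (m + k + 2) * FL L m) ≤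
          FL L (m + k) * (FL L (m + 1) * FL L (m + k + 1)) := by
        calc FL L (m + k) * (FL L (m + k + 2) * FL L m)
            = (FL L (m + k) * FL L (m + k + 2)) * FL L m := by ring
          _ ≤ FL L (m + k + 1) ^ 2 * FL L m := mul_le_mul_of_nonneg_right hl hm0.le
          _ = FL L (m + k + 1) * (FL L (m + k + 1) * FL L m) := by ring
          _ ≤ FL L (m + k + 1) * (FL L (m + 1) * FL L (m + k)) :=
              mul_le_mul_of_nonneg_left ih' hpk1.le
          _ = FL L (m + k) * (FL L (m + 1) * FL L (m + k + 1)) := by ring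
      exact le_of_mul_le_mul_left h3 hpk
  set q : ℝ := FL L (m + 1) / FL L m with hq
  have hq0 : 0 < q := div_pos hm1 hm0
  have hq1 : q ≤ 1 := by
    rw [hq, div_le_one hm0]
    exact hanti m (by omega)
  have hpw : ∀ k, m + k ≤ 2 * M → FL L (m + k) ≤ q ^ k := by
    intro k
    induction k with
    | zero =>
      intro _
      simpa using (h01 m (by omega)).2
    | succ k ih =>
      intro hk
      have ih' := ih (by omega)
      have h2 := hrat k (by omega)
      have h3 : FL L (m + k + 1) ≤ q * FL L (m + k) := by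
        rw [hq, div_mul_eq_mul_div, le_div_iff₀ hm0]
        exact h2
      calc FL L (m + (k + 1)) = FL L (m + k + 1) := rfl
        _ ≤ q * FL L (m + k) := h3
        _ ≤ q * q ^ k := mul_le_mul_of_nonneg_left ih' hq0.le
        _ = q ^ (k + 1) := by ring
  have h4 := hpw (2 * M - m) (by omega)
  rw [show m + (2 * M - m) = 2 * M by omega] at h4
  have h5 : q ^ (2 * M - m) ≤ q ^ M := pow_le_pow_of_le_one hq0.le hq1 (by omega)
  have h6 : (α ^ 2) ^ M ≤ q ^ M := by
    rw [← pow_mul]
    exact le_trans hF (le_trans h4 h5)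
  have h7 : α ^ 2 ≤ q := le_of_pow_le_pow_left₀ (by omega) hq0.le h6
  rw [hq, le_div_iff₀ hm0] at h7
  exact h7

end Pool.Agent.Helper86.CR
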